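import Mathlib
import Pool.Agent.Lib.MP_6a9e1f_gt.Final

/-!
A smooth tight handle on a projected Veronese surface in `E⁴`. The definitions are in
`Pool.Agent.Lib.MP_6a9e1f_gt.Defs`.
-/

namespace Pool.Agent.Results.MP_6a9e1f_gt.TightHandle

open Pool.Agent.Lib.MP_6a9e1f_gt Metric

/-- There are a projected Veronese surface `V` in `E⁴` and a closed smooth embedded surface `S` in
`E⁴` which arises from the image of `V` by attaching a handle and has the two-piece property. -/
theorem result : ∃ (V : Eucl 3 → Eucl 4) (S : Set (Eucl 4)), IsProjectedVeronese V ∧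
    HandleAttached (V '' sphere 0 1) S ∧ IsClosedSmoothSurface S ∧ TwoPieceProperty S :=
  main

end Pool.Agent.Results.MP_6a9e1f_gt.TightHandle
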